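import Pool.Agent.H67.Sip3

namespace Pool.Agent.Results.MP_0c3240_lc.Full

open FirstOrder

/-- operations of arity `n + 1` on the natural numbers (product topology) -/
abbrev Oper (n : ℕ) : Type := (Fin (n + 1) → ℕ) → ℕ

/-- all finitary operations of positive arity (sum topology) -/
abbrev AllOps : Type := Σ n : ℕ, Oper n

def proj (n : ℕ) (i : Fin (n + 1)) : AllOps := ⟨n, fun x => x i⟩

def comp {n m : ℕ} (f : Oper n) (g : Fin (n + 1) → Oper m) : Oper m :=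
  fun x => f (fun i => g i x)

def IsClone (C : Set AllOps) : Prop :=
  (∀ n i, proj n i ∈ C) ∧
  ∀ n m (f : Oper n) (g : Fin (n + 1) → Oper m), (⟨n, f⟩ : AllOps) ∈ C →
    (∀ i, (⟨m, g i⟩ : AllOps) ∈ C) → (⟨m, comp f g⟩ : AllOps) ∈ C

def IsCloneHom {C D : Set AllOps} (ξ : C → D) : Prop :=
  (∀ f : C, (ξ f).1.1 = f.1.1) ∧
  (∀ n i (h : proj n i ∈ C), (ξ ⟨proj n i, h⟩).1 = proj n i) ∧
  ∀ n m (f f' : Oper n) (g g' : Fin (n + 1) → Oper m) (hf : (⟨n, f⟩ : AllOps) ∈ C)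
    (hg : ∀ i, (⟨m, g i⟩ : AllOps) ∈ C) (hc : (⟨m, comp f g⟩ : AllOps) ∈ C),
    (ξ ⟨⟨n, f⟩, hf⟩).1 = ⟨n, f'⟩ → (∀ i, (ξ ⟨⟨m, g i⟩, hg i⟩).1 = ⟨m, g' i⟩) →
    (ξ ⟨⟨m, comp f g⟩, hc⟩).1 = ⟨m, comp f' g'⟩

/-- the polymorphisms of the structure with relations `R i` of arity `ar i` -/
def Pol {ι : Type} (ar : ι → ℕ) (R : ∀ i, Set (Fin (ar i) → ℕ)) : Set AllOps :=
  {f | ∀ i (a : Fin (f.1 + 1) → Fin (ar i) → ℕ), (∀ j, a j ∈ R i) →
    (fun r => f.2 (fun j => a j r)) ∈ R i}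

theorem cont_sig {S T : Set AllOps} (F : S → T) (G : ∀ n, Oper n → Oper n)
    (h : ∀ n f hf, (F ⟨⟨n, f⟩, hf⟩).1 = ⟨n, G n f⟩)
    (hc : ∀ n, Continuous fun f : (Sigma.mk n ⁻¹' S : Set (Oper n)) => G n f.1) : Continuous F := by
  refine continuous_induced_rng.2 (continuous_iff_continuousAt.2 ?_)
  rintro ⟨⟨n, f⟩, hf⟩
  have e := (Topology.IsOpenEmbedding.sigmaMk (σ := Oper) (i := n)).restrictPreimage S
  refine (e.continuousAt_iff (x := ⟨f, hf⟩)).1 ?_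
  have : (Subtype.val ∘ F) ∘ S.restrictPreimage (Sigma.mk n) =
      fun f => (⟨n, G n f.1⟩ : AllOps) := funext fun f => h n f.1 f.2
  rw [this]
  exact (continuous_sigmaMk.comp (hc n)).continuousAt

theorem result : ∀ [Language.empty.Structure ℕ] (ι : Type) (ar : ι → ℕ)
    (R : ∀ i, Set (Fin (ar i) → ℕ)),
    (∀ i, (∅ : Set ℕ).Definable Language.empty (R i)) →
    ∀ D : Set AllOps, IsClone D → IsClosed D →
    ∀ ξ : Pol ar R → D, IsCloneHom ξ → Function.Bijective ξ → IsHomeomorph ξ := by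
  intro _ ι ar R hR D _ hD ξ ⟨h1, h2, h3⟩ hb
  have : ∀ n (f : Oper n) (hf : (⟨n, f⟩ : AllOps) ∈ Pol ar R), ∃ f' : Oper n,
      (ξ ⟨⟨n, f⟩, hf⟩).1 = ⟨n, f'⟩ := by
    intro n f hf
    have := h1 ⟨⟨n, f⟩, hf⟩
    generalize (ξ ⟨⟨n, f⟩, hf⟩).1 = z at this
    obtain ⟨m, g⟩ := z
    obtain rfl : m = n := this
    exact ⟨g, rfl⟩
  choose! G hG using this
  have pr : ∀ n i, proj n i ∈ Pol ar R := fun n i k a ha => ha i
  have cp : ∀ n m (f : Oper n) (g : Fin (n + 1) → Oper m), (⟨n, f⟩ : AllOps) ∈ Pol ar R →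
      (∀ i, (⟨m, g i⟩ : AllOps) ∈ Pol ar R) → (⟨m, comp f g⟩ : AllOps) ∈ Pol ar R :=
    fun n m f g hf hg k a ha => hf k (fun i r => g i (fun j => a j r)) fun i => hg i k a ha
  have sg : ∀ {n} {f g : Oper n}, (⟨n, f⟩ : AllOps) = ⟨n, g⟩ → f = g := fun e =>
    sigma_mk_injective e
  have st : H67.Sip.St (fun n => Sigma.mk n ⁻¹' Pol ar R) (fun n => Sigma.mk n ⁻¹' D) G :=
    { pr := pr
      cp := cp
      cl := fun n => by
        have : (Sigma.mk n ⁻¹' Pol ar R : Set (Oper n)) = ⋂ i, ⋂ a : Fin (n + 1) → Fin (ar i) → ℕ,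
            ⋂ _ : ∀ j, a j ∈ R i, (fun (f : Oper n) r => f (fun j => a j r)) ⁻¹' R i := by
          ext f
          simp [Pol]
        rw [this]
        exact isClosed_iInter fun i => isClosed_iInter fun a => isClosed_iInter fun _ =>
          (isClosed_discrete _).preimage (by fun_prop)
      pm := fun σ i a ha => by
        obtain ⟨φ, hφ⟩ := Set.empty_definable_iff.1 (hR i)
        have := ha 0
        rw [hφ] at this ⊢
        exact (Language.StrongHomClass.realize_formula σ φ).2 this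
      dcl := fun n => hD.preimage continuous_sigmaMk
      bij := fun n => ⟨fun f hf => by
          have := (ξ ⟨⟨n, f⟩, hf⟩).2
          rwa [hG n f hf] at this,
        fun f hf g hg e => sg (congrArg Subtype.val (hb.1 (a₁ := ⟨⟨n, f⟩, hf⟩) (a₂ := ⟨⟨n, g⟩, hg⟩)
          (Subtype.ext (by rw [hG, hG, e])))),
        fun g hg => by
          obtain ⟨⟨⟨m, f⟩, hf⟩, e⟩ := hb.2 ⟨⟨n, g⟩, hg⟩
          have e1 := (hG m f hf).symm.trans (congrArg Subtype.val e)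
          obtain rfl : m = n := congrArg Sigma.fst e1
          exact ⟨f, hf, sg e1⟩⟩
      xpr := fun n i => sg ((hG n _ (pr n i)).symm.trans (h2 n i (pr n i)))
      xcp := fun n m f g hf hg => sg ((hG m _ (cp n m f g hf hg)).symm.trans
        (h3 n m f _ g _ hf hg (cp n m f g hf hg) (hG n f hf) (fun i => hG m _ (hg i)))) }
  let e := Equiv.ofBijective ξ hb
  refine isHomeomorph_iff_exists_inverse.2 ⟨cont_sig ξ G hG fun n =>
    H67.Sip.cont_of_fin fun f y => ?_, e.symm, e.left_inv, e.right_inv, cont_sig _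
      (fun n => Function.invFunOn (G n) (Sigma.mk n ⁻¹' Pol ar R)) (fun n g hg => ?_) fun n =>
      H67.Sip.cont_of_fin fun g x => ?_⟩
  · obtain ⟨T, hT, h⟩ := st.cont f.2 y
    exact ⟨T, hT, fun f' => h _ f'.2⟩
  · have a := (st.bij n).surjOn.mapsTo_invFunOn hg
    have b := (st.bij n).surjOn.rightInvOn_invFunOn hg
    have : e.symm ⟨⟨n, g⟩, hg⟩ = ⟨⟨n, _⟩, a⟩ := by
      rw [Equiv.symm_apply_eq]
      exact Subtype.ext (by
        show _ = (ξ _).1
        rw [hG, b])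
    rw [this]
  · obtain ⟨T, hT, h⟩ := st.inv_cont ((st.bij n).surjOn.mapsTo_invFunOn g.2) x
    refine ⟨T, hT, fun g' e => h _ ((st.bij n).surjOn.mapsTo_invFunOn g'.2) fun a ha => ?_⟩
    rw [(st.bij n).surjOn.rightInvOn_invFunOn g.2, (st.bij n).surjOn.rightInvOn_invFunOn g'.2]
    exact e a ha

end Pool.Agent.Results.MP_0c3240_lc.Full
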